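import Mathlib
import Pool.Agent.H140.CW.Main

/-!
# A polynomial-size set of placements for graphs of bounded cutwidth

For all `d`, `a`, `w` there is a number `s` such that for every `n` an explicit set of
`(nd + 1) ^ O(ad + s)` integer placements of `n` vertices in `d`-space, with coordinates of
polynomial bit length, has the following property: every graph on these vertices which has cutwidth
at most `w` after the removal of at most `a` vertices attains its generic rank in the
`d`-dimensional rigidity matroid at one of the placements. The placements do not depend on the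
graph, and neither the removed vertices nor the order of the other vertices have to be known.

The rigidity matrix is a sum of matrices in one variable each (one for each oriented edge and each
coordinate); in the order of the vertices each cut of this family has bounded support, and each
variable is used boundedly often. The points for such families are the unused theorem
`path_rank` of the starting library (`Pool/Agent/W943/Pm/P3.lean`).
-/

set_option autoImplicit false

namespace Pool.Agent.Results.MP_37c7bf_co.BoundedCutwidth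

open MvPolynomial Pool.Agent.H283R2.DR Pool.Agent.H789R5 Pool.Agent.H140.CW

variable {n d : ℕ}

/-- The placement of `n` vertices in `d`-space given by positions `pos` with values `val` and a
vector `x`: the vertex `v` is placed at the point `val l` if `pos l = v`, and at the point with
the coordinates `x_{(v,1)}, …, x_{(v,d)}` if it is none of the positions. -/
def place {a : ℕ} (pos : Fin a → Fin (n + 1)) (val : Fin a → Fin d → ℕ) (x : Fin (n * d) → ℤ) :
    Fin n → Fin d → ℤ :=
  fun v i => if ∃ l, (pos l : ℕ) = v then ∑ l, (if (pos l : ℕ) = v then (val l i : ℤ) else 0)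
    else x (finProdFinEquiv (v, i))

/-- The vector with seeds `y`, `z`: its coordinate with number `j` is
`∑_l y_l ∏_{k ≠ j} (z_l - k)`, where `k` runs over `0, …, m - 1`. -/
def vec (m s : ℕ) (y z : Fin s → ℕ) : Fin m → ℤ :=
  fun j => ∑ l : Fin s, (y l : ℤ) * ∏ k ∈ Finset.univ.erase j, ((z l : ℤ) - (k.val : ℤ))

/-- All placements with values in `{0, …, nd}`, seeds `y ∈ {0, …, nd} ^ s` and
`z ∈ {0, …, (nd)²} ^ s`. -/
def placements (d n a s : ℕ) : Finset (Fin n → Fin d → ℤ) :=
  (Finset.univ : Finset ((Fin a → Fin (n + 1)) × (Fin a → Fin d → Fin (n * d + 1)) ×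
      (Fin s → Fin (n * d + 1)) × (Fin s → Fin ((n * d) ^ 2 + 1)))).image
    fun q => place q.1 (fun l i => (q.2.1 l i : ℕ))
      (vec (n * d) s (fun l => (q.2.2.1 l : ℕ)) (fun l => (q.2.2.2 l : ℕ)))

theorem rank_le_genRank (G : SimpleGraph (Fin n)) (p : Fin n → Fin d → ℝ) :
    (rigidityMatrix G p).rank ≤ genRank d G := by
  unfold genRank
  refine le_csSup ⟨n * d, ?_⟩ ⟨p, rfl⟩
  rintro _ ⟨p', rfl⟩
  refine (Matrix.rank_le_card_width _).trans ?_
  rw [Fintype.card_prod, Fintype.card_fin, Fintype.card_fin]

theorem rowR_comm {K : Type*} [Ring K] (p : Fin n → Fin d → K) (u v : Fin n) :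
    rowR p u v = rowR p v u := by
  funext c
  unfold rowR
  split_ifs with h1 h2 h2
  · rw [← h1, ← h2]
  · rfl
  · rfl
  · rfl

/-- a nonzero polynomial has a nonzero value on the grid -/
theorem exists_grid {m D : ℕ} (f : MvPolynomial (Fin m) ℝ) (h0 : f ≠ 0) (hD : f.totalDegree ≤ D) :
    ∃ c : Fin m → ℕ, (∀ i, c i ≤ D) ∧ eval (fun i => (c i : ℝ)) f ≠ 0 := by
  classical
  obtain ⟨t, ht, htd⟩ : ∃ t ∈ f.support, f.totalDegree = t.degree := by
    obtain ⟨t, ht, h⟩ := Finset.exists_mem_eq_sup f.support (support_nonempty.2 h0)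
      (fun s => s.degree)
    refine ⟨t, ht, ?_⟩
    rw [← h]
    unfold totalDegree
    refine Finset.sup_congr rfl fun s _ => ?_
    rw [Finsupp.degree]
    rfl
  obtain ⟨x, hx, hxe⟩ := combinatorial_nullstellensatz_exists_eval_nonzero f t
    (mem_support_iff.1 ht) htd (fun _ => (Finset.range (D + 1)).image (fun k : ℕ => (k : ℝ)))
    (fun i => by
      rw [Finset.card_image_of_injective _ Nat.cast_injective, Finset.card_range]
      have : t i ≤ t.degree := Finsupp.le_degree i t
      omega)
  choose c hc hce using fun i => Finset.mem_image.1 (hx i)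
  refine ⟨c, fun i => Nat.lt_succ_iff.1 (Finset.mem_range.1 (hc i)), ?_⟩
  have : (fun i => (c i : ℝ)) = x := funext hce
  rw [this]
  exact hxe

open Classical in
/-- the vertices of `S` can be moved to grid points -/
theorem exists_ovr (S : Finset (Fin n)) (G : SimpleGraph (Fin n)) (p : Fin n → Fin d → ℝ) :
    ∃ c : Fin n → Fin d → ℕ, (∀ v i, c v i ≤ n * d) ∧
      (rigidityMatrix G p).rank ≤ (rigidityMatrix G (ovr S (fun v i => (c v i : ℝ))
        (fun x => p (finProdFinEquiv.symm x).1 (finProdFinEquiv.symm x).2))).rank := by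
  classical
  set q : Fin (n * d) → ℝ := fun x => p (finProdFinEquiv.symm x).1 (finProdFinEquiv.symm x).2
    with hq
  set vl : Fin n → Fin d → MvPolynomial (Fin (n * d)) ℝ := fun u i =>
    if u ∈ S then X (finProdFinEquiv (u, i)) else C (q (finProdFinEquiv (u, i))) with hvl
  set M : Matrix G.edgeSet (Fin n × Fin d) (MvPolynomial (Fin (n * d)) ℝ) :=
    fun e => Sym2.lift ⟨rowR vl, rowR_comm vl⟩ e.1 with hM
  have hev : ∀ x : Fin (n * d) → ℝ, M.map (eval x) =
      rigidityMatrix G (ovr S (fun v i => x (finProdFinEquiv (v, i))) q) := by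
    intro x
    ext1 e y
    obtain ⟨e, he⟩ := e
    induction e using Sym2.ind with
    | _ u v =>
      show eval x (rowR vl u v y) = row _ u v y
      have hv : ∀ (y : Fin n) (i : Fin d), eval x (vl y i) =
          ovr S (fun v i => x (finProdFinEquiv (v, i))) q y i := by
        intro y i
        rw [hvl]
        unfold ovr
        dsimp only
        split_ifs
        · rw [eval_X]
        · rw [eval_C]
      unfold rowR row
      split_ifs
      · rw [map_sub, hv, hv]
      · rw [map_sub, hv, hv]
      · rw [map_zero]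
  have hdeg : ∀ e y, (M e y).totalDegree ≤ 1 := by
    intro e y
    obtain ⟨e, he⟩ := e
    induction e using Sym2.ind with
    | _ u v =>
      show (rowR vl u v y).totalDegree ≤ 1
      have hv : ∀ (y : Fin n) (i : Fin d), (vl y i).totalDegree ≤ 1 := by
        intro y i
        rw [hvl]
        dsimp only
        split_ifs
        · rw [totalDegree_X]
        · rw [totalDegree_C]; exact Nat.zero_le _
      unfold rowR
      split_ifs
      · exact (totalDegree_sub _ _).trans (max_le (hv _ _) (hv _ _))
      · exact (totalDegree_sub _ _).trans (max_le (hv _ _) (hv _ _))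
      · simp
  have hpq : ovr S (fun v i => q (finProdFinEquiv (v, i))) q = p := by
    funext v i
    unfold ovr
    rw [hq]
    dsimp only
    rw [Equiv.symm_apply_apply]
    split_ifs <;> rfl
  obtain ⟨ρ, hρ, s, y, hsy⟩ : ∃ ρ, (rigidityMatrix G p).rank = ρ ∧
      ∃ (s : Fin ρ → G.edgeSet) (y : Fin ρ → Fin n × Fin d),
        ((rigidityMatrix G p).submatrix s y).det ≠ 0 :=
    ⟨_, rfl, Pool.Agent.TH483.exists_minor _⟩
  have hdet : ∀ x : Fin (n * d) → ℝ, eval x (M.submatrix s y).det =
      ((rigidityMatrix G (ovr S (fun v i => x (finProdFinEquiv (v, i))) q)).submatrix s y).det := by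
    intro x
    rw [← hev, RingHom.map_det]
    rfl
  have hne : (M.submatrix s y).det ≠ 0 := by
    intro h0
    apply hsy
    rw [← hpq, ← hdet, h0, map_zero]
  have hr : ρ ≤ n * d := by
    have := Fintype.card_le_of_injective y (Pool.Agent.TH483.inj_of_det _ s y hsy).2
    simpa using this
  obtain ⟨c, hc, hce⟩ := exists_grid (D := n * d) _ hne (by
    have := (Pool.Agent.TH483.det_mem (A := Set.univ) (M.submatrix s y)
      (fun i j => by rw [mem_supported]; exact Set.subset_univ _)
      (fun i j => hdeg _ _)).2
    rw [Fintype.card_fin, mul_one] at this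
    exact this.trans hr)
  refine ⟨fun v i => c (finProdFinEquiv (v, i)), fun v i => hc _, ?_⟩
  rw [hρ]
  rw [hdet] at hce
  exact Pool.Agent.TH483.le_rank_of_minor _ s y hce

theorem exists_placement {a w : ℕ} {G : SimpleGraph (Fin n)} (hG : NearCutwidthLE a w G)
    (p : Fin n → Fin d → ℝ) : ∃ q ∈ placements d n a (seeds d a w),
      (rigidityMatrix G p).rank ≤ (rigidityMatrix G (fun v i => (q v i : ℝ))).rank := by
  classical
  obtain ⟨S, σ, hS, hσ⟩ := hG
  obtain ⟨c, hc, h1⟩ := exists_ovr S G p
  obtain ⟨x, hx, h2⟩ := exists_point hS hσ (fun v i => (c v i : ℝ))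
    (fun x => p (finProdFinEquiv.symm x).1 (finProdFinEquiv.symm x).2)
  unfold Pool.Agent.W943.Cut.points at hx
  rw [Finset.mem_image] at hx
  obtain ⟨⟨y, z⟩, hyz, rfl⟩ := hx
  rw [Finset.mem_product, Fintype.mem_piFinset, Fintype.mem_piFinset] at hyz
  obtain ⟨hy, hz⟩ := hyz
  dsimp only at hy hz
  -- the positions
  set e := S.equivFin with he
  set pos : Fin a → Fin (n + 1) := fun l => if h : l.val < S.card then
    (e.symm ⟨l.val, h⟩).val.castSucc else Fin.last n with hpos
  set vv : Fin a → Fin d → Fin (n * d + 1) := fun l i => if h : l.val < S.card then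
    ⟨c (e.symm ⟨l.val, h⟩).val i, Nat.lt_succ_iff.2 (hc _ _)⟩ else 0 with hvv
  set q : Fin n → Fin d → ℤ := place pos (fun l i => (vv l i : ℕ))
    (vec (n * d) (seeds d a w) y z) with hq
  have hmem : ∀ v : Fin n, (∃ l, (pos l : ℕ) = v) ↔ v ∈ S := by
    intro v
    constructor
    · rintro ⟨l, hl⟩
      rw [hpos] at hl
      dsimp only at hl
      split_ifs at hl with h
      · have h3 : (e.symm ⟨l.val, h⟩).val = v := Fin.ext hl
        rw [← h3]
        exact (e.symm ⟨l.val, h⟩).2
      · have := v.2
        rw [Fin.val_last] at hl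
        omega
    · intro hv
      have hlt : (e ⟨v, hv⟩).val < S.card := (e ⟨v, hv⟩).2
      refine ⟨⟨(e ⟨v, hv⟩).val, by omega⟩, ?_⟩
      rw [hpos]
      dsimp only
      rw [dif_pos hlt]
      simp
  have hqe : (fun v i => (q v i : ℝ)) = ovr S (fun v i => (c v i : ℝ))
      (fun x => ((Pool.Agent.W943.Cut.point (n * d) (seeds d a w) y z x : ℤ) : ℝ)) := by
    funext v i
    unfold ovr
    by_cases hv : v ∈ S
    · rw [if_pos hv, hq]
      unfold place
      rw [if_pos ((hmem v).2 hv)]
      have hlt : (e ⟨v, hv⟩).val < S.card := (e ⟨v, hv⟩).2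
      set l₀ : Fin a := ⟨(e ⟨v, hv⟩).val, by omega⟩ with hl₀
      rw [Finset.sum_eq_single l₀]
      · have h3 : (pos l₀ : ℕ) = v := by
          rw [hpos]
          dsimp only
          rw [dif_pos hlt]
          simp [hl₀]
        rw [if_pos h3]
        have h4 : vv l₀ i = ⟨c v i, Nat.lt_succ_iff.2 (hc _ _)⟩ := by
          rw [hvv]
          dsimp only
          rw [dif_pos hlt]
          apply Fin.ext
          simp [hl₀]
        dsimp only
        rw [h4]
        simp
      · intro l _ hl
        refine if_neg ?_
        intro h3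
        apply hl
        rw [hpos] at h3
        dsimp only at h3
        split_ifs at h3 with h
        · have h4 : (e.symm ⟨l.val, h⟩).val = v := Fin.ext h3
          have h5 : e.symm ⟨l.val, h⟩ = ⟨v, hv⟩ := Subtype.ext h4
          have h6 : (⟨l.val, h⟩ : Fin S.card) = e ⟨v, hv⟩ := by
            rw [← h5, Equiv.apply_symm_apply]
          have h7 : l.val = (e ⟨v, hv⟩).val := congrArg Fin.val h6
          exact Fin.ext h7
        · have := v.2
          rw [Fin.val_last] at h3
          omega
      · intro h
        exact absurd (Finset.mem_univ _) h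
    · rw [if_neg hv, hq]
      unfold place
      rw [if_neg (fun h => hv ((hmem v).1 h))]
      rfl
  refine ⟨q, ?_, ?_⟩
  · unfold placements
    rw [Finset.mem_image]
    refine ⟨(pos, vv, (fun l => ⟨y l, Finset.mem_range.1 (hy l)⟩),
      (fun l => ⟨z l, by have := Finset.mem_range.1 (hz l); rw [sq]; exact this⟩)),
      Finset.mem_univ _, rfl⟩
  · rw [hqe]
    exact h1.trans h2

theorem placements_card (d n a s : ℕ) (hd : 1 ≤ d) :
    (placements d n a s).card ≤ (n * d + 1) ^ (a + a * d + 3 * s) := by
  unfold placements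
  refine Finset.card_image_le.trans ?_
  rw [Finset.card_univ]
  simp only [Fintype.card_prod, Fintype.card_pi, Fintype.card_fin, Finset.prod_const,
    Finset.card_univ]
  set N := n * d + 1 with hN
  have h1 : n + 1 ≤ N := by
    rw [hN]
    have : n * 1 ≤ n * d := Nat.mul_le_mul_left _ hd
    omega
  have h2 : (n * d) ^ 2 + 1 ≤ N ^ 2 := by
    rw [hN]
    nlinarith [Nat.zero_le (n * d)]
  calc (n + 1) ^ a * ((N ^ d) ^ a * (N ^ s * ((n * d) ^ 2 + 1) ^ s))
      ≤ N ^ a * ((N ^ d) ^ a * (N ^ s * (N ^ 2) ^ s)) := by gcongr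
    _ = N ^ (a + a * d + 3 * s) := by
        rw [← pow_mul, ← pow_mul, ← pow_add, ← pow_add, ← pow_add]
        congr 1
        ring

theorem placements_bound (d n a s : ℕ) (q : Fin n → Fin d → ℤ) (hq : q ∈ placements d n a s)
    (v : Fin n) (i : Fin d) : |q v i| ≤ (((a + s) * (n * d + 1) ^ (2 * n * d + 1) : ℕ) : ℤ) := by
  obtain ⟨N, hN⟩ : ∃ N, N = n * d + 1 := ⟨_, rfl⟩
  rw [← hN]
  unfold placements at hq
  rw [Finset.mem_image] at hq
  obtain ⟨⟨pos, val, y, z⟩, _, rfl⟩ := hq
  have hN1 : 1 ≤ N := by omega
  unfold place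
  split_ifs with h
  · calc |∑ l, (if (pos l : ℕ) = v then (((val l i : Fin (n * d + 1)) : ℕ) : ℤ) else 0)|
        ≤ ∑ l, |(if (pos l : ℕ) = v then (((val l i : Fin (n * d + 1)) : ℕ) : ℤ) else 0)| :=
          Finset.abs_sum_le_sum_abs _ _
      _ ≤ ∑ l : Fin a, ((N : ℕ) : ℤ) := by
          apply Finset.sum_le_sum
          intro l _
          split_ifs
          · rw [abs_of_nonneg (by positivity)]
            have : ((val l i : Fin (n * d + 1)) : ℕ) ≤ N := hN ▸ (val l i).isLt.le
            exact_mod_cast this
          · simp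
      _ = ((a * N ^ 1 : ℕ) : ℤ) := by simp
      _ ≤ (((a + s) * N ^ (2 * n * d + 1) : ℕ) : ℤ) := by
          apply Int.ofNat_le.2
          exact Nat.mul_le_mul (Nat.le_add_right _ _) (Nat.pow_le_pow_right hN1 (by omega))
  · unfold vec
    set j := finProdFinEquiv (v, i) with hj
    have hj2 := j.2
    calc |∑ l : Fin s, (((y l : Fin (n * d + 1)) : ℕ) : ℤ) *
            ∏ k ∈ Finset.univ.erase j, ((((z l : Fin ((n * d) ^ 2 + 1)) : ℕ) : ℤ) - (k.val : ℤ))|
        ≤ ∑ l : Fin s, |(((y l : Fin (n * d + 1)) : ℕ) : ℤ) *
            ∏ k ∈ Finset.univ.erase j, ((((z l : Fin ((n * d) ^ 2 + 1)) : ℕ) : ℤ) - (k.val : ℤ))| :=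
          Finset.abs_sum_le_sum_abs _ _
      _ ≤ ∑ l : Fin s, ((N * N ^ (2 * (n * d)) : ℕ) : ℤ) := by
          apply Finset.sum_le_sum
          intro l _
          rw [abs_mul, Finset.abs_prod]
          push_cast
          refine mul_le_mul ?_ ?_ (by positivity) (by positivity)
          · rw [abs_of_nonneg (by positivity)]
            have : ((y l : Fin (n * d + 1)) : ℕ) ≤ N := hN ▸ (y l).isLt.le
            exact_mod_cast this
          · have hz := (z l).isLt
            have h2 : (n * d) ^ 2 + 1 ≤ N ^ 2 := by
              rw [hN]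
              nlinarith [Nat.zero_le (n * d)]
            calc ∏ k ∈ Finset.univ.erase j,
                  |(((z l : Fin ((n * d) ^ 2 + 1)) : ℕ) : ℤ) - (k.val : ℤ)|
                ≤ ∏ k ∈ Finset.univ.erase j, ((N ^ 2 : ℕ) : ℤ) := by
                  refine Finset.prod_le_prod (fun _ _ => abs_nonneg _) fun k _ => ?_
                  have hk := k.2
                  have h3 : n * d ≤ N ^ 2 := by
                    rw [hN]
                    nlinarith [Nat.zero_le (n * d)]
                  rw [abs_le]
                  constructor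
                  · have : ((k.val : ℕ) : ℤ) ≤ ((N ^ 2 : ℕ) : ℤ) := by
                      exact_mod_cast (hk.le.trans h3)
                    have h4 : (0 : ℤ) ≤ (((z l : Fin ((n * d) ^ 2 + 1)) : ℕ) : ℤ) := by positivity
                    linarith
                  · have : ((((z l : Fin ((n * d) ^ 2 + 1)) : ℕ) : ℤ)) ≤ ((N ^ 2 : ℕ) : ℤ) := by
                      exact_mod_cast (hz.le.trans h2)
                    have h4 : (0 : ℤ) ≤ ((k.val : ℕ) : ℤ) := by positivity
                    linarith
              _ = ((N ^ 2 : ℕ) : ℤ) ^ (Finset.univ.erase j).card := by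
                  rw [Finset.prod_const]
              _ ≤ ((N ^ 2 : ℕ) : ℤ) ^ (n * d) := by
                  refine pow_le_pow_right₀ ?_ ?_
                  · exact_mod_cast Nat.one_le_pow _ _ hN1
                  · refine (Finset.card_le_univ _).trans ?_
                    rw [Fintype.card_fin]
              _ = (N : ℤ) ^ (2 * (n * d)) := by
                  push_cast
                  rw [← pow_mul]
      _ = ((s * N ^ (2 * n * d + 1) : ℕ) : ℤ) := by
          rw [Finset.sum_const, Finset.card_univ, Fintype.card_fin, nsmul_eq_mul]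
          push_cast
          ring
      _ ≤ (((a + s) * N ^ (2 * n * d + 1) : ℕ) : ℤ) := by
          apply Int.ofNat_le.2
          exact Nat.mul_le_mul_right _ (Nat.le_add_left _ _)

/-- **Polynomially many placements for generic rigidity of graphs of bounded cutwidth.** For all
`d ≥ 1`, `a` and `w` there is `s` such that for all `n`: the explicit set `placements d n a s`
consists of at most `(nd + 1) ^ (a + ad + 3s)` integer placements of `n` vertices in `ℝ^d`, with
coordinates of absolute value at most `(a + s) (nd + 1) ^ (2nd + 1)`. For every graph `G` on the `n`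
vertices which has cutwidth at most `w` after the removal of at most `a` vertices, the rank of `G`
in the generic `d`-dimensional rigidity matroid is the largest rank of the rigidity matrix of `G` at
these placements; so, for `n ≥ d`, the graph is generically rigid in `ℝ^d` if and only if the rank
is at least `dn - d (d + 1) / 2` at one of them. -/
theorem result (d a w : ℕ) (hd : 1 ≤ d) : ∃ s : ℕ, ∀ n : ℕ,
    (placements d n a s).card ≤ (n * d + 1) ^ (a + a * d + 3 * s) ∧
    (∀ q ∈ placements d n a s, ∀ v i,
      |q v i| ≤ (((a + s) * (n * d + 1) ^ (2 * n * d + 1) : ℕ) : ℤ)) ∧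
    ∀ G : SimpleGraph (Fin n), NearCutwidthLE a w G →
      (∀ q ∈ placements d n a s, (rigidityMatrix G (fun v i => (q v i : ℝ))).rank ≤ genRank d G) ∧
      (∃ q ∈ placements d n a s, (rigidityMatrix G (fun v i => (q v i : ℝ))).rank = genRank d G) ∧
      (d ≤ n → (GenRigid d G ↔ ∃ q ∈ placements d n a s,
        d * n ≤ (rigidityMatrix G (fun v i => (q v i : ℝ))).rank + d * (d + 1) / 2)) := by
  classical
  refine ⟨seeds d a w, fun n => ⟨placements_card d n a _ hd,
    fun q hq v i => placements_bound d n a _ q hq v i, fun G hG => ?_⟩⟩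
  obtain ⟨p, hp⟩ := exists_mg (Fin n) d
  have hgr := genRank_add hp G
  have hrp := rank_add_mo G p
  rw [Fintype.card_fin] at hgr hrp
  obtain ⟨q, hq, hqr⟩ := exists_placement hG p
  have hqe : (rigidityMatrix G (fun v i => (q v i : ℝ))).rank = genRank d G := by
    have := rank_le_genRank G (fun v i => (q v i : ℝ))
    omega
  refine ⟨fun q _ => rank_le_genRank G _, ⟨q, hq, hqe⟩, fun hdn => ?_⟩
  rw [genRigid_iff hp (by rw [Fintype.card_fin]; exact hdn)]
  constructor
  · intro h
    exact ⟨q, hq, by omega⟩
  · rintro ⟨q', -, hq'⟩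
    have := rank_le_genRank G (fun v i => (q' v i : ℝ))
    omega

end Pool.Agent.Results.MP_37c7bf_co.BoundedCutwidth
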